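import Pool.Agent.H606R2.LSE.Hard
import Pool.Agent.H612.PatOf

/-!
# Long/short edges on complete bipartite graphs: `∃ℝ`-complete

The hardness proof reduces from the realizability of strict sign matrices by points (rows) and
lines (columns) in the plane. A column becomes two vertices `b`, `b'`: the edge from a row `a` is
short for `b` and long for `b'` if the entry is positive, and conversely otherwise. In a drawing,
the bisector of `b` and `b'` separates the rows according to the column. Conversely, if the points
of the rows are scaled into a tiny neighbourhood of the origin, the circles of radius `1` about
suitable points `b`, `b'` near the unit circle approximate the line of the column.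
-/

namespace Pool.Agent.Results.MP_24b35c_lc.CompleteBipartiteER

open Pool.Agent.NPC Pool.Agent.NPC.ER Pool.Agent.NPC.ER.Pat Pool.Agent.NPC.ER.LSE

theorem isPatOf : IsPatOf Sgn.patOf where
  poly := Sgn.poly_patOf Poly.id
  wf := Sgn.patOf_wf
  sound := fun _ h => Sgn.patOf_sound h
  complete := fun _ h => Sgn.patOf_complete h

/-- Long/short edge realizability, restricted to complete bipartite graphs, is `∃ℝ`-complete under
polynomial-time many-one reductions. -/
theorem result : ERComplete (lang fun G : Inst => IsInst G ∧ Realizable G) :=
  ⟨lse_mem, lse_hard isPatOf⟩

end Pool.Agent.Results.MP_24b35c_lc.CompleteBipartiteER
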